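import Pool.Agent.Q296.CBU.Claim

/-!
# MP_c0f83f_co, Q1

Every series-parallel graph of girth at least 7 is 2-CBU.
-/

set_option autoImplicit false

namespace Pool.Agent.Results.MP_c0f83f_co.GirthSevenSuffices

open Pool.Agent.Q296.CBU

/-- `G` has a `K₄` minor: four pairwise disjoint vertex sets, each inducing a connected subgraph,
with an edge between any two of them -/
def HasK4Minor {V : Type*} (G : SimpleGraph V) : Prop :=
  ∃ B : Fin 4 → Set V, (∀ i, (G.induce (B i)).Connected) ∧
    (∀ i j, i ≠ j → Disjoint (B i) (B j)) ∧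
    ∀ i j, i ≠ j → ∃ x ∈ B i, ∃ y ∈ B j, G.Adj x y

/-- `G` is 2-CBU: contact graph of closed axis-parallel rectangles with nonempty interior, with
pairwise disjoint interiors, all contacts being along vertical segments of positive length -/
def IsTwoCBU {V : Type*} (G : SimpleGraph V) : Prop :=
  ∃ R : V → Set (ℝ × ℝ),
    (∀ v, ∃ x₁ x₂ y₁ y₂ : ℝ, x₁ < x₂ ∧ y₁ < y₂ ∧ R v = Set.Icc x₁ x₂ ×ˢ Set.Icc y₁ y₂) ∧
    (∀ u v, u ≠ v → Disjoint (interior (R u)) (interior (R v))) ∧
    (∀ u v, u ≠ v → R u ∩ R v = ∅ ∨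
      ∃ x y₁ y₂ : ℝ, y₁ < y₂ ∧ R u ∩ R v = {x} ×ˢ Set.Icc y₁ y₂) ∧
    (∀ u v, u ≠ v → (G.Adj u v ↔ (R u ∩ R v).Nonempty))

lemma con_induce {V : Type*} {G : SimpleGraph V} {A : Set V} (h : Con G A) :
    (G.induce A).Connected := by
  have key : ∀ x y : V, ∀ _ : (res G A).Walk x y, ∀ (hx : x ∈ A) (hy : y ∈ A),
      (G.induce A).Reachable ⟨x, hx⟩ ⟨y, hy⟩ := by
    intro x y p
    induction p with
    | nil => intro _ _; exact SimpleGraph.Reachable.refl _
    | cons h p ih =>
      intro hx hy
      exact (SimpleGraph.Adj.reachable (G := G.induce A) (u := ⟨_, hx⟩) (v := ⟨_, h.2.2⟩)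
        h.1).trans (ih h.2.2 hy)
  obtain ⟨z, hz⟩ := h.1
  rw [SimpleGraph.connected_iff]
  refine ⟨?_, ⟨⟨z, hz⟩⟩⟩
  rintro ⟨x, hx⟩ ⟨y, hy⟩
  obtain ⟨p⟩ := h.2 x hx y hy
  exact key x y p hx hy

lemma minor_of_K4M {V : Type*} {G : SimpleGraph V} (h : K4M G) : HasK4Minor G := by
  obtain ⟨A, B, C, D, ⟨a1, a2, a3, a4⟩, ⟨b1, b2, b3, b4, b5, b6⟩, c1, c2, c3, c4, c5, c6⟩ := h
  refine ⟨![A, B, C, D], ?_, ?_, ?_⟩
  · intro i
    fin_cases i
    · exact con_induce a1
    · exact con_induce a2
    · exact con_induce a3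
    · exact con_induce a4
  · intro i j hij
    fin_cases i <;> fin_cases j <;> first
      | exact absurd rfl hij
      | exact b1
      | exact b2
      | exact b3
      | exact b4
      | exact b5
      | exact b6
      | exact b1.symm
      | exact b2.symm
      | exact b3.symm
      | exact b4.symm
      | exact b5.symm
      | exact b6.symm
  · intro i j hij
    fin_cases i <;> fin_cases j <;> first
      | exact absurd rfl hij
      | exact c1
      | exact c2
      | exact c3
      | exact c4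
      | exact c5
      | exact c6
      | exact c1.symm
      | exact c2.symm
      | exact c3.symm
      | exact c4.symm
      | exact c5.symm
      | exact c6.symm

/-- the closed rectangle -/
def box (q : Rect) : Set (ℝ × ℝ) := Set.Icc q.l q.r ×ˢ Set.Icc q.b q.t

lemma inter_apart {p q : Rect} (h : Apart p q) : box p ∩ box q = ∅ := by
  rw [Set.eq_empty_iff_forall_notMem]
  rintro ⟨x, y⟩ ⟨⟨⟨h1, h2⟩, h3, h4⟩, ⟨h5, h6⟩, h7, h8⟩
  simp only at h1 h2 h3 h4 h5 h6 h7 h8
  rcases h with h | h | h | h <;> linarith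

lemma inter_touch_aux {p q : Rect} (h : p.r = q.l) (_h1 : p.b < q.t) (_h2 : q.b < p.t) :
    box p ∩ box q = {p.r} ×ˢ Set.Icc (max p.b q.b) (min p.t q.t) := by
  unfold box
  rw [Set.prod_inter_prod, Set.Icc_inter_Icc, Set.Icc_inter_Icc]
  have e1 : max p.l q.l = p.r := by
    rw [max_eq_right]
    · exact h.symm
    · rw [← h]; exact p.hlr.le
  have e2 : min p.r q.r = p.r := by
    rw [min_eq_left]
    rw [h]; exact q.hlr.le
  change Set.Icc (max p.l q.l) (min p.r q.r) ×ˢ Set.Icc (max p.b q.b) (min p.t q.t) = _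
  rw [e1, e2, Set.Icc_self]

lemma inter_touch {p q : Rect} (h : Touch p q) :
    ∃ x y₁ y₂ : ℝ, y₁ < y₂ ∧ box p ∩ box q = {x} ×ˢ Set.Icc y₁ y₂ := by
  obtain ⟨h0, h1, h2⟩ := h
  have hlt : max p.b q.b < min p.t q.t :=
    max_lt (lt_min p.hbt h1) (lt_min h2 q.hbt)
  rcases h0 with h | h
  · exact ⟨p.r, _, _, hlt, inter_touch_aux h h1 h2⟩
  · refine ⟨q.r, max q.b p.b, min q.t p.t, ?_, ?_⟩
    · rw [max_comm, min_comm]; exact hlt
    · rw [Set.inter_comm]; exact inter_touch_aux h h2 h1

lemma interior_box (q : Rect) : interior (box q) = Set.Ioo q.l q.r ×ˢ Set.Ioo q.b q.t := by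
  unfold box
  rw [interior_prod_eq, interior_Icc, interior_Icc]

lemma disj_interior {p q : Rect} (h : Touch p q ∨ Apart p q) :
    Disjoint (interior (box p)) (interior (box q)) := by
  rw [interior_box, interior_box, Set.disjoint_left]
  rintro ⟨x, y⟩ ⟨⟨h1, h2⟩, h3, h4⟩ ⟨⟨h5, h6⟩, h7, h8⟩
  simp only at h1 h2 h3 h4 h5 h6 h7 h8
  rcases h with ⟨h | h, -, -⟩ | h | h | h | h <;> linarith

/-- **Q1, answer yes with `g = 7`**: every finite series-parallel graph of girth at least `7` is
2-CBU. -/
theorem result {V : Type*} [Finite V] (G : SimpleGraph V) (hsp : ¬ HasK4Minor G)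
    (hg : 7 ≤ G.egirth) : IsTwoCBU G := by
  classical
  obtain ⟨hF⟩ := nonempty_fintype V
  have hK4 : ¬ K4M G := fun h => hsp (minor_of_K4M h)
  have hS := noShort_of_girth hg
  obtain ⟨R, hR⟩ : ∃ R : V → Rect, Valid G Finset.univ R := by
    rcases isEmpty_or_nonempty V with hV | ⟨⟨v0⟩⟩
    · exact ⟨fun v => (hV.false v).elim, fun v => (hV.false v).elim⟩
    · have st : St G {v0} (Finset.univ.erase v0)
          (fun _ => ⟨0, 1, 0, 1, by norm_num, by norm_num⟩) 0 (fun _ => v0) (fun _ => 0)
          (fun _ => 1) (fun _ => {v0}) := by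
        refine ⟨?_, ?_, ?_, fun i hi => by omega, fun i hi j hj _ => by omega, ?_,
          fun x _ i hi j hj _ _ => by omega, fun x _ y _ _ i hi j hj _ _ => by omega,
          ⟨fun i _ => con_single G v0, fun i _ => rfl, fun i hi j hj hij => by omega, ?_,
            fun i hi => by omega, fun h => by omega⟩⟩
        · intro u hu v hv huv
          rw [Finset.mem_singleton] at hu hv
          exact absurd (hu.trans hv.symm) huv
        · intro c hc hc'
          rw [Finset.mem_erase] at hc
          rw [Finset.mem_singleton] at hc'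
          exact hc.1 hc'
        · intro i _
          refine ⟨Finset.mem_singleton_self v0, by norm_num, le_refl _, le_refl _, ?_⟩
          intro u hu huv
          rw [Finset.mem_singleton] at hu
          exact absurd hu huv
        · intro c _ x hx _
          rw [Finset.mem_singleton] at hx
          exact ⟨0, le_refl _, hx⟩
        · intro i _ c hc hc'
          rw [Finset.mem_erase] at hc
          exact hc.1 hc'
      obtain ⟨R', -, h2, -⟩ := claim hK4 hS _ _ _ _ _ _ _ _ _ rfl st
      refine ⟨R', ?_⟩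
      have : ({v0} : Finset V) ∪ Finset.univ.erase v0 = Finset.univ := by
        ext x
        rw [Finset.mem_union, Finset.mem_singleton, Finset.mem_erase]
        simp only [Finset.mem_univ, and_true, iff_true]
        exact em _
      rwa [this] at h2
  have hcase : ∀ u v, u ≠ v → Touch (R u) (R v) ∨ Apart (R u) (R v) := by
    intro u v huv
    by_cases h : G.Adj u v
    · exact Or.inl ((hR u (Finset.mem_univ _) v (Finset.mem_univ _) huv).1 h)
    · exact Or.inr ((hR u (Finset.mem_univ _) v (Finset.mem_univ _) huv).2 h)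
  refine ⟨fun v => box (R v), fun v => ⟨_, _, _, _, (R v).hlr, (R v).hbt, rfl⟩,
    fun u v huv => disj_interior (hcase u v huv), fun u v huv => ?_, fun u v huv => ?_⟩
  · rcases hcase u v huv with h | h
    · exact Or.inr (inter_touch h)
    · exact Or.inl (inter_apart h)
  · constructor
    · intro h
      obtain ⟨x, y₁, y₂, h1, h2⟩ :=
        inter_touch ((hR u (Finset.mem_univ _) v (Finset.mem_univ _) huv).1 h)
      rw [h2]
      exact ⟨(x, y₁), ⟨rfl, le_refl _, h1.le⟩⟩
    · intro h
      by_contra hno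
      have := inter_apart ((hR u (Finset.mem_univ _) v (Finset.mem_univ _) huv).2 hno)
      rw [this] at h
      exact Set.not_nonempty_empty h

end Pool.Agent.Results.MP_c0f83f_co.GirthSevenSuffices
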